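import Pool.Agent.Helper66.IT.C
import Pool.Agent.Helper96.AF.N2

/-!
# Project IT (MP_a499ba_nt), block Ad: admissibility outside a small set

`adm_pr`: the common step (first moments of the two masses, Markov). `stmtAd_M`: the squarefree model.
-/

set_option autoImplicit false

namespace Pool.Agent.IT

open Finset MeasureTheory Pool.Agent.Helper5.RM Pool.Agent.Helper96.AF Pool.Agent.Helper66.LW
open scoped ContDiff

/-! ### generalities -/

private lemma meas_Ac69 (h : ℕ → ℂ) : Measurable (fun v => ‖Ac h v‖ ^ 2) := by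
  have e : (fun v => ‖Ac h v‖ ^ 2) = fun v => Av (fun n => (h n).re) v ^ 2 + Av (fun n => (h n).im) v ^ 2 :=
    funext fun v => Ac_sq h v
  rw [e]
  exact ((measurable_Av _).pow_const 2).add ((measurable_Av _).pow_const 2)

private lemma Ac_sq69 (h : ℕ → ℂ) (v : ℝ) : ‖Ac h v‖ ^ 2 = Real.exp (-v) * ‖Hc h ⌊Real.exp v⌋₊‖ ^ 2 := by
  unfold Ac
  rw [norm_mul, mul_pow, Complex.norm_real, Real.norm_of_nonneg (Real.exp_pos _).le, ← Real.exp_nat_mul]
  congr 2
  push_cast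
  ring

private lemma norm_Hc69 {h : ℕ → ℂ} (hh : ∀ n, ‖h n‖ ≤ 1) (n : ℕ) : ‖Hc h n‖ ≤ n := by
  unfold Hc
  refine (norm_sum_le _ _).trans ((Finset.sum_le_sum fun m _ => hh m).trans ?_)
  simp

private lemma Ac_le69 {h : ℕ → ℂ} (hh : ∀ n, ‖h n‖ ≤ 1) (v : ℝ) : ‖Ac h v‖ ^ 2 ≤ Real.exp v := by
  rw [Ac_sq69]
  have h1 : ‖Hc h ⌊Real.exp v⌋₊‖ ≤ Real.exp v := (norm_Hc69 hh _).trans (Nat.floor_le (Real.exp_pos v).le)
  have h2 : ‖Hc h ⌊Real.exp v⌋₊‖ ^ 2 ≤ Real.exp v ^ 2 := pow_le_pow_left₀ (norm_nonneg _) h1 2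
  calc Real.exp (-v) * ‖Hc h ⌊Real.exp v⌋₊‖ ^ 2 ≤ Real.exp (-v) * Real.exp v ^ 2 :=
        mul_le_mul_of_nonneg_left h2 (Real.exp_pos _).le
    _ = Real.exp v := by
        rw [sq, ← mul_assoc, ← Real.exp_add]
        simp

private lemma int_loc69 {h : ℕ → ℂ} (hh : ∀ n, ‖h n‖ ≤ 1) (b : ℝ) : IntegrableOn (fun v => ‖Ac h v‖ ^ 2) (Set.Ioc 0 b) := by
  have h1 : IntegrableOn (fun v : ℝ => Real.exp v) (Set.Ioc 0 b) :=
    (Real.continuous_exp.continuousOn.integrableOn_Icc).mono_set Set.Ioc_subset_Icc_self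
  refine Integrable.mono' h1 (meas_Ac69 h).aestronglyMeasurable (Filter.Eventually.of_forall fun v => ?_)
  rw [Real.norm_of_nonneg (sq_nonneg _)]
  exact Ac_le69 hh v

private lemma av_integral69 (S : Finset ℕ) (E : Set ℝ) (F : Finset ℕ → ℝ → ℝ) (hF : ∀ T ⊆ S, IntegrableOn (F T) E) :
    av S (fun T => ∫ v in E, F T v) = ∫ v in E, av S (fun T => F T v) := by
  unfold av
  rw [integral_div, integral_finset_sum _ fun T hT => hF T (Finset.mem_powerset.1 hT)]

private lemma av_intble69 (S : Finset ℕ) (E : Set ℝ) (F : Finset ℕ → ℝ → ℝ) (hF : ∀ T ⊆ S, IntegrableOn (F T) E) :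
    IntegrableOn (fun v => av S (fun T => F T v)) E := by
  unfold av
  exact (integrable_finset_sum _ fun T hT => hF T (Finset.mem_powerset.1 hT)).div_const _

private lemma av_Ac69 (S : Finset ℕ) (h : Finset ℕ → ℕ → ℂ) {C : ℝ} (hC0 : 0 ≤ C)
    (hC : ∀ n : ℕ, av S (fun T => ‖Hc (h T) n‖ ^ 2) ≤ C * n) (v : ℝ) : av S (fun T => ‖Ac (h T) v‖ ^ 2) ≤ C := by
  rw [av_congr fun T _ => Ac_sq69 (h T) v, av_mul_left]
  calc Real.exp (-v) * av S (fun T => ‖Hc (h T) ⌊Real.exp v⌋₊‖ ^ 2) ≤ Real.exp (-v) * (C * Real.exp v) := by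
        refine mul_le_mul_of_nonneg_left ((hC _).trans ?_) (Real.exp_pos _).le
        exact mul_le_mul_of_nonneg_left (Nat.floor_le (Real.exp_pos v).le) hC0
    _ = C * (Real.exp (-v) * Real.exp v) := by ring
    _ = C := by rw [← Real.exp_add]; simp

/-- first moments of the masses, and Markov's inequality -/
theorem adm_pr {r : ℕ} (hr : 2 ≤ r) (S : Finset ℕ) (h : Finset ℕ → ℕ → ℂ) (D : Finset ℕ → ℝ → ℂ)
    (hle : ∀ T n, ‖h T n‖ ≤ 1) (hsumm : ∀ T, Summable fun n : ℕ => ‖h T n‖ * (n : ℝ) ^ (-(1 / 2 + sr r)))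
    (hsm : ∀ T, ContDiff ℝ ∞ (D T))
    (hhs : ∀ T, ∀ t : ℝ, HasSum (fun n : ℕ => h T n * (n : ℂ) ^ (-(((1 / 2 + sr r : ℝ) : ℂ) + Complex.I * (t : ℂ)))) (D T t))
    (hint : ∀ T, IntegrableOn (fun v => ‖Ac (h T) v‖ ^ 2 * Real.exp (-(sr r * v))) (Set.Ioi 0))
    {C : ℝ} (hC0 : 0 ≤ C) (hC : ∀ n : ℕ, av S (fun T => ‖Hc (h T) n‖ ^ 2) ≤ C * n) {A : ℝ} (hA : 0 < A) :
    pr S (fun T => ¬ AdmC r (h T) (D T) (A * 2 ^ r)) ≤ 3 * C / A := by
  have hs := sr_pos hr
  have hV := Vr_pos r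
  have hB : 0 < A * 2 ^ r := by positivity
  have m0 : av S (fun T => ∫ v in (0 : ℝ)..(2 * Vr r), ‖Ac (h T) v‖ ^ 2) ≤ C * (2 * Vr r) := by
    have e : ∀ T, ∫ v in (0 : ℝ)..(2 * Vr r), ‖Ac (h T) v‖ ^ 2 = ∫ v in Set.Ioc 0 (2 * Vr r), ‖Ac (h T) v‖ ^ 2 := fun T =>
      intervalIntegral.integral_of_le (by positivity)
    rw [av_congr fun T _ => e T, av_integral69 S _ _ fun T _ => int_loc69 (hle T) _]
    calc ∫ v in Set.Ioc 0 (2 * Vr r), av S (fun T => ‖Ac (h T) v‖ ^ 2) ≤ ∫ _v in Set.Ioc 0 (2 * Vr r), C := by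
          refine integral_mono (av_intble69 S _ _ fun T _ => int_loc69 (hle T) _) ?_ fun v => av_Ac69 S h hC0 hC v
          exact integrable_const _
      _ = C * (2 * Vr r) := by
          rw [setIntegral_const, Real.volume_real_Ioc_of_le (by positivity), smul_eq_mul]
          ring
  have m1 : av S (fun T => ∫ v in Set.Ioi (0 : ℝ), ‖Ac (h T) v‖ ^ 2 * Real.exp (-(sr r * v))) ≤ C * (1 / sr r) := by
    rw [av_integral69 S _ _ fun T _ => hint T]
    have hexp : IntegrableOn (fun v : ℝ => Real.exp (-(sr r * v))) (Set.Ioi 0) := by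
      have := exp_neg_integrableOn_Ioi 0 hs
      simpa only [neg_mul] using this
    calc ∫ v in Set.Ioi (0 : ℝ), av S (fun T => ‖Ac (h T) v‖ ^ 2 * Real.exp (-(sr r * v))) ≤
          ∫ v in Set.Ioi (0 : ℝ), C * Real.exp (-(sr r * v)) := by
          refine integral_mono (av_intble69 S _ _ fun T _ => hint T) (hexp.const_mul C) fun v => ?_
          have e : av S (fun T => ‖Ac (h T) v‖ ^ 2 * Real.exp (-(sr r * v))) =
              Real.exp (-(sr r * v)) * av S (fun T => ‖Ac (h T) v‖ ^ 2) := by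
            rw [← av_mul_left]
            exact av_congr fun T _ => mul_comm _ _
          change av S (fun T => ‖Ac (h T) v‖ ^ 2 * Real.exp (-(sr r * v))) ≤ C * Real.exp (-(sr r * v))
          rw [e, mul_comm C]
          exact mul_le_mul_of_nonneg_left (av_Ac69 S h hC0 hC v) (Real.exp_pos _).le
      _ = C * (1 / sr r) := by
          rw [integral_const_mul]
          congr 1
          have h0 := integral_exp_mul_Ioi (a := -sr r) (by linarith) 0
          simp only [neg_mul, mul_zero, neg_zero, Real.exp_zero] at h0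
          rw [h0]
          field_simp
  have h1 : pr S (fun T => ¬ AdmC r (h T) (D T) (A * 2 ^ r)) ≤
      pr S (fun T => A * 2 ^ r ≤ ∫ v in (0 : ℝ)..(2 * Vr r), ‖Ac (h T) v‖ ^ 2) +
        pr S (fun T => A * 2 ^ r ≤ ∫ v in Set.Ioi (0 : ℝ), ‖Ac (h T) v‖ ^ 2 * Real.exp (-(sr r * v))) := by
    refine pr_le_add fun T _ hn => ?_
    by_contra hc
    push Not at hc
    exact hn ⟨hle T, hsumm T, hsm T, hhs T, hint T, hc.1.le, hc.2.le⟩
  have h2 := markov (S := S) (F := fun T => ∫ v in (0 : ℝ)..(2 * Vr r), ‖Ac (h T) v‖ ^ 2)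
    (fun T _ => intervalIntegral.integral_nonneg (by positivity) fun _ _ => sq_nonneg _) hB m0
  have h3 := markov (S := S) (F := fun T => ∫ v in Set.Ioi (0 : ℝ), ‖Ac (h T) v‖ ^ 2 * Real.exp (-(sr r * v)))
    (fun T _ => integral_nonneg fun _ => mul_nonneg (sq_nonneg _) (Real.exp_pos _).le) hB m1
  have h4 : C * (2 * Vr r) / (A * 2 ^ r) ≤ 2 * C / A := by
    rw [div_le_div_iff₀ hB hA]
    have := Vr_le r
    have h5 : C * (2 * Vr r) * A = 2 * C * A * Vr r := by ring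
    have h6 : 2 * C * (A * 2 ^ r) = 2 * C * A * 2 ^ r := by ring
    rw [h5, h6]
    exact mul_le_mul_of_nonneg_left this (by positivity)
  have h7 : 1 / sr r ≤ 2 ^ r := by
    have hl : (1 / 40 : ℝ) ≤ Real.log r := by
      have h8 : Real.log 2 ≤ Real.log r := Real.log_le_log (by norm_num) (by exact_mod_cast hr)
      have := Real.log_two_gt_d9
      linarith
    rw [div_le_iff₀ hs]
    unfold sr
    rw [mul_div_assoc', le_div_iff₀ hV, one_mul]
    have := Vr_le r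
    have h9 : (0 : ℝ) < 2 ^ r := by positivity
    nlinarith
  have h10 : C * (1 / sr r) / (A * 2 ^ r) ≤ C / A := by
    rw [div_le_div_iff₀ hB hA]
    have h5 : C * (1 / sr r) * A = C * A * (1 / sr r) := by ring
    have h6 : C * (A * 2 ^ r) = C * A * 2 ^ r := by ring
    rw [h5, h6]
    exact mul_le_mul_of_nonneg_left h7 (by positivity)
  calc pr S (fun T => ¬ AdmC r (h T) (D T) (A * 2 ^ r)) ≤ C * (2 * Vr r) / (A * 2 ^ r) + C * (1 / sr r) / (A * 2 ^ r) :=
        h1.trans (add_le_add h2 h3)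
    _ ≤ 2 * C / A + C / A := add_le_add h4 h10
    _ = 3 * C / A := by ring

/-! ### the squarefree model -/

/-- the phases of the squarefree model -/
private noncomputable def phM69 (th : ℕ → ℝ) (n : ℕ) : ℂ := ∏ p ∈ n.primeFactors, Complex.exp (Complex.I * (th p : ℂ))

private lemma norm_phM69 (th : ℕ → ℝ) (n : ℕ) : ‖phM69 th n‖ = 1 := by
  unfold phM69
  rw [norm_prod]
  refine Finset.prod_eq_one fun p _ => ?_
  rw [mul_comm]
  exact Complex.norm_exp_ofReal_mul_I _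

private lemma fM_eq69 (th : ℕ → ℝ) (T : Finset ℕ) (n : ℕ) : fM th T n = (rf T n : ℂ) * phM69 th n := by
  unfold fM rf phM69 fp
  split_ifs with h
  · rw [Finset.prod_mul_distrib]
    unfold wal
    push_cast
    rfl
  · simp

private lemma norm_fM69 (r : ℕ) (th : ℕ → ℝ) (T : Finset ℕ) (n : ℕ) : ‖smo r (fM th T) n‖ ≤ 1 := by
  unfold smo
  split_ifs
  · rw [fM_eq69, norm_mul, norm_phM69, mul_one, Complex.norm_real]
    exact abs_rf_le T n
  · simp

/-- the support -/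
private noncomputable def supp69 (r : ℕ) : Finset ℕ := (PP (Y r)).powerset.image (fun A => ∏ p ∈ A, p)

private lemma prime_of_sub69 {r : ℕ} {A : Finset ℕ} (hA : A ∈ (PP (Y r)).powerset) : ∀ p ∈ A, p.Prime :=
  fun p hp => (mem_PP.1 (Finset.mem_powerset.1 hA hp)).1

private lemma sqf69 {A : Finset ℕ} (hA : ∀ p ∈ A, p.Prime) : Squarefree (∏ p ∈ A, p) := by
  refine Finset.squarefree_prod_of_pairwise_isCoprime ?_ fun p hp => (hA p hp).squarefree
  intro p hp q hq hpq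
  exact Nat.coprime_iff_isRelPrime.1 ((Nat.coprime_primes (hA p hp) (hA q hq)).2 hpq)

private lemma inj69 (r : ℕ) : Set.InjOn (fun A : Finset ℕ => ∏ p ∈ A, p) ((PP (Y r)).powerset : Set (Finset ℕ)) := by
  intro A hA A' hA' h
  simp only at h
  have h1 := Nat.primeFactors_prod (prime_of_sub69 (Finset.mem_coe.1 hA))
  have h2 := Nat.primeFactors_prod (prime_of_sub69 (Finset.mem_coe.1 hA'))
  rw [← h1, ← h2, h]

private lemma f_prod69 {r : ℕ} (th : ℕ → ℝ) (T : Finset ℕ) {A : Finset ℕ} (hA : A ∈ (PP (Y r)).powerset) :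
    smo r (fM th T) (∏ p ∈ A, p) = ∏ p ∈ A, fp th T p := by
  have hp := prime_of_sub69 hA
  have h1 := Nat.primeFactors_prod hp
  unfold smo
  rw [h1, if_pos (fun p hp' => (mem_PP.1 (Finset.mem_powerset.1 hA hp')).2)]
  unfold fM
  rw [if_pos (sqf69 hp), h1]

private lemma f_zero69 {r : ℕ} (th : ℕ → ℝ) (T : Finset ℕ) {n : ℕ} (hn : n ∉ supp69 r) : smo r (fM th T) n = 0 := by
  unfold smo
  split_ifs with h
  · by_contra h0
    have hsq : Squarefree n := by
      by_contra h1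
      exact h0 (by unfold fM; rw [if_neg h1])
    apply hn
    unfold supp69
    rw [Finset.mem_image]
    refine ⟨n.primeFactors, ?_, Nat.prod_primeFactors_of_squarefree hsq⟩
    rw [Finset.mem_powerset]
    intro p hp
    exact mem_PP.2 ⟨Nat.prime_of_mem_primeFactors hp, h p hp⟩
  · rfl

private lemma cpow_prod69 (s : ℂ) (A : Finset ℕ) : ((∏ p ∈ A, p : ℕ) : ℂ) ^ s = ∏ p ∈ A, (p : ℂ) ^ s := by
  induction A using Finset.induction_on with
  | empty => simp
  | insert a A ha ih =>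
    rw [Finset.prod_insert ha, Finset.prod_insert ha, ← ih, Nat.cast_mul]
    exact Complex.natCast_mul_natCast_cpow _ _ _

private lemma hasSum69 (r : ℕ) (th : ℕ → ℝ) (T : Finset ℕ) (t : ℝ) :
    HasSum (fun n : ℕ => smo r (fM th T) n * (n : ℂ) ^ (-(((1 / 2 + sr r : ℝ) : ℂ) + Complex.I * (t : ℂ)))) (DM r th T t) := by
  have h1 : DM r th T t = ∑ n ∈ supp69 r, smo r (fM th T) n * (n : ℂ) ^ (-(((1 / 2 + sr r : ℝ) : ℂ) + Complex.I * (t : ℂ))) := by
    unfold supp69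
    rw [Finset.sum_image (inj69 r)]
    unfold DM
    rw [Finset.prod_one_add]
    refine Finset.sum_congr rfl fun A hA => ?_
    rw [f_prod69 th T hA, cpow_prod69, Finset.prod_mul_distrib]
  rw [h1]
  refine hasSum_sum_of_ne_finset_zero fun n hn => ?_
  rw [f_zero69 th T hn]
  simp

private lemma smooth69 (r : ℕ) (th : ℕ → ℝ) (T : Finset ℕ) : ContDiff ℝ ∞ (DM r th T) := by
  unfold DM
  refine contDiff_prod fun p hp => ?_
  refine contDiff_const.add (contDiff_const.mul ?_)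
  have hp0 : (p : ℂ) ≠ 0 := by
    have := (mem_PP.1 hp).1.ne_zero
    exact_mod_cast this
  have e : (fun t : ℝ => (p : ℂ) ^ (-(((1 / 2 + sr r : ℝ) : ℂ) + Complex.I * (t : ℂ)))) =
      fun t : ℝ => Complex.exp (Complex.log p * (-(((1 / 2 + sr r : ℝ) : ℂ) + Complex.I * (t : ℂ)))) := by
    funext t
    rw [Complex.cpow_def_of_ne_zero hp0]
  rw [e]
  refine Complex.contDiff_exp.comp (contDiff_const.mul (contDiff_const.add (contDiff_const.mul ?_)).neg)
  exact Complex.ofRealCLM.contDiff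

/-- a bound for the partial sums -/
private noncomputable def bd69 (r : ℕ) (th : ℕ → ℝ) (T : Finset ℕ) : ℝ := ∑ m ∈ supp69 r, ‖smo r (fM th T) m‖

private lemma Hc_bd69 (r : ℕ) (th : ℕ → ℝ) (T : Finset ℕ) (n : ℕ) : ‖Hc (smo r (fM th T)) n‖ ≤ bd69 r th T := by
  classical
  unfold Hc bd69
  refine (norm_sum_le _ _).trans ?_
  rw [← Finset.sum_filter_of_ne (p := fun m => m ∈ supp69 r)]
  · refine Finset.sum_le_sum_of_subset_of_nonneg (fun m hm => (Finset.mem_filter.1 hm).2) fun _ _ _ => norm_nonneg _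
  · intro m _ hm
    by_contra h
    exact hm (by rw [f_zero69 th T h, norm_zero])

private lemma int69 {r : ℕ} (hr : 2 ≤ r) (th : ℕ → ℝ) (T : Finset ℕ) :
    IntegrableOn (fun v => ‖Ac (smo r (fM th T)) v‖ ^ 2 * Real.exp (-(sr r * v))) (Set.Ioi 0) := by
  have hs := sr_pos hr
  refine Integrable.mono' ((integrableOn_exp_neg_Ioi 0).const_mul (bd69 r th T ^ 2)) ?_ ?_
  · exact ((meas_Ac69 _).mul (Real.continuous_exp.comp (by fun_prop)).measurable).aestronglyMeasurable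
  · rw [ae_restrict_iff' measurableSet_Ioi]
    refine Filter.Eventually.of_forall fun v hv => ?_
    rw [Real.norm_of_nonneg (mul_nonneg (sq_nonneg _) (Real.exp_pos _).le)]
    have h1 : Real.exp (-(sr r * v)) ≤ 1 := by
      rw [Real.exp_le_one_iff]
      have : 0 < sr r * v := mul_pos hs hv
      linarith
    calc ‖Ac (smo r (fM th T)) v‖ ^ 2 * Real.exp (-(sr r * v)) ≤ ‖Ac (smo r (fM th T)) v‖ ^ 2 * 1 :=
          mul_le_mul_of_nonneg_left h1 (sq_nonneg _)
      _ = Real.exp (-v) * ‖Hc (smo r (fM th T)) ⌊Real.exp v⌋₊‖ ^ 2 := by rw [mul_one, Ac_sq69]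
      _ ≤ Real.exp (-v) * bd69 r th T ^ 2 :=
          mul_le_mul_of_nonneg_left (pow_le_pow_left₀ (norm_nonneg _) (Hc_bd69 r th T _) 2) (Real.exp_pos _).le
      _ = bd69 r th T ^ 2 * Real.exp (-v) := mul_comm _ _

private lemma av_Hc69 (r : ℕ) (th : ℕ → ℝ) (n : ℕ) :
    av (PP (Y r)) (fun T => ‖Hc (smo r (fM th T)) n‖ ^ 2) ≤ 1 * n := by
  classical
  have h1 := hyper_sqf 1 le_rfl (PP (Y r)) ((Finset.Icc 1 n).filter (fun m => Squarefree m ∧ ∀ p ∈ m.primeFactors, p ≤ Y r))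
    (fun m hm => by
      rw [Finset.mem_filter] at hm
      refine ⟨hm.2.1, fun p hp => mem_PP.2 ⟨Nat.prime_of_mem_primeFactors hp, hm.2.2 p hp⟩⟩) (phM69 th)
  have e1 : ∀ T : Finset ℕ, ‖∑ m ∈ (Finset.Icc 1 n).filter (fun m => Squarefree m ∧ ∀ p ∈ m.primeFactors, p ≤ Y r),
      (rf T m : ℂ) * phM69 th m‖ ^ (2 * 1) = ‖Hc (smo r (fM th T)) n‖ ^ 2 := by
    intro T
    rw [mul_one]
    congr 2
    unfold Hc
    rw [Finset.sum_filter]
    refine Finset.sum_congr rfl fun m _ => ?_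
    unfold smo
    by_cases h2 : ∀ p ∈ m.primeFactors, p ≤ Y r
    · rw [if_pos h2, fM_eq69]
      by_cases h3 : Squarefree m
      · rw [if_pos ⟨h3, h2⟩]
      · rw [if_neg (fun hh => h3 hh.1), rf_not h3]
        simp
    · rw [if_neg h2, if_neg (fun hh => h2 hh.2)]
  rw [av_congr fun T _ => e1 T] at h1
  refine h1.trans ?_
  rw [pow_one]
  have e3 : ∀ m : ℕ, (2 * ((1 : ℕ) : ℝ) - 1) ^ om m * ‖phM69 th m‖ ^ 2 = 1 := by
    intro m
    rw [norm_phM69]
    norm_num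
  rw [Finset.sum_congr rfl fun m _ => e3 m, Finset.sum_const, nsmul_eq_mul, mul_one, one_mul]
  have h4 := Finset.card_filter_le (Finset.Icc 1 n) (fun m => Squarefree m ∧ ∀ p ∈ m.primeFactors, p ≤ Y r)
  rw [Nat.card_Icc, Nat.add_sub_cancel] at h4
  exact_mod_cast h4

theorem stmtAd_M : StmtAd fM DM := by
  intro η hη
  refine ⟨3 / η, by positivity, 2, fun r hr ph => ?_⟩
  have key : ∀ th : ℕ → ℝ, pr (PP (Y r)) (fun T1 => ¬ AdmC r (smo r (fM th T1)) (DM r th T1) (3 / η * 2 ^ r)) ≤ η := by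
    intro th
    have := adm_pr hr (PP (Y r)) (fun T => smo r (fM th T)) (fun T => DM r th T) (fun T n => norm_fM69 r th T n)
      (fun T => summable_of_ne_finset_zero (s := supp69 r) fun n hn => by rw [f_zero69 th T hn, norm_zero, zero_mul])
      (fun T => smooth69 r th T) (fun T t => hasSum69 r th T t) (fun T => int69 hr th T) zero_le_one (av_Hc69 r th)
      (A := 3 / η) (by positivity)
    refine this.trans (le_of_eq ?_)
    field_simp
  calc av (PP (Y r)) (fun T2 => pr (PP (Y r)) (fun T1 =>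
        ¬ AdmC r (smo r (fM (tt ph T2) T1)) (DM r (tt ph T2) T1) (3 / η * 2 ^ r)))
      ≤ av (PP (Y r)) (fun _ => η) := av_mono fun T2 _ => key _
    _ = η := av_const _ _

end Pool.Agent.IT
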