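import Mathlib

/-!
# Project IT (MP_a499ba_nt), block WB: a weighted integral
-/

set_option autoImplicit false

namespace Pool.Agent.Helper69.IT

open MeasureTheory

/-- the pointwise bound -/
private lemma pw69 {a t v : ℝ} (ha : 0 < a) (ha2 : a < 2) :
    (1 + |v|) ^ (-a) / (1 + |v - t|) ≤
      2 ^ (a / 2) * (1 + |t|) ^ (-(a / 2)) * ((1 + |v|) ^ (-(1 + a / 2)) + (1 + |v - t|) ^ (-(1 + a / 2))) := by
  set x : ℝ := 1 + |v| with hx
  set y : ℝ := 1 + |v - t| with hy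
  set z : ℝ := 1 + |t| with hz
  have hx0 : 0 < x := by rw [hx]; positivity
  have hy0 : 0 < y := by rw [hy]; positivity
  have hz0 : 0 < z := by rw [hz]; positivity
  have hxy : z ≤ x + y := by
    have h1 : |t| ≤ |v| + |v - t| := by
      have h2 := abs_sub_abs_le_abs_sub t v
      rw [abs_sub_comm t v] at h2
      linarith
    rw [hx, hy, hz]
    linarith
  have hK : 0 < 2 ^ (a / 2) * z ^ (-(a / 2)) := by positivity
  have key : ∀ w : ℝ, 0 < w → z ≤ 2 * w → w ^ (-(a / 2)) ≤ 2 ^ (a / 2) * z ^ (-(a / 2)) := by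
    intro w hw hzw
    have h1 : z / 2 ≤ w := by linarith
    have h2 : w ^ (-(a / 2)) ≤ (z / 2) ^ (-(a / 2)) := Real.rpow_le_rpow_of_nonpos (by positivity) h1 (by linarith)
    have h3 : (z / 2) ^ (-(a / 2)) = 2 ^ (a / 2) * z ^ (-(a / 2)) := by
      rw [Real.div_rpow hz0.le (by norm_num), Real.rpow_neg (by norm_num : (0 : ℝ) ≤ 2)]
      field_simp
    rw [← h3]
    exact h2
  have e1 : x ^ (-a) / y = x ^ (-a) * y ^ (-1 : ℝ) := by rw [Real.rpow_neg_one, div_eq_mul_inv]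
  rw [e1]
  rcases le_total x y with h | h
  · have h1 : y ^ (-1 : ℝ) = y ^ (-(a / 2)) * y ^ (-(1 - a / 2)) := by
      rw [← Real.rpow_add hy0]; congr 1; ring
    have h2 : y ^ (-(1 - a / 2)) ≤ x ^ (-(1 - a / 2)) := Real.rpow_le_rpow_of_nonpos hx0 h (by linarith)
    have h3 := key y hy0 (by linarith)
    have h4 : x ^ (-a) * x ^ (-(1 - a / 2)) = x ^ (-(1 + a / 2)) := by
      rw [← Real.rpow_add hx0]; congr 1; ring
    calc x ^ (-a) * y ^ (-1 : ℝ) = x ^ (-a) * (y ^ (-(a / 2)) * y ^ (-(1 - a / 2))) := by rw [h1]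
      _ ≤ x ^ (-a) * ((2 ^ (a / 2) * z ^ (-(a / 2))) * x ^ (-(1 - a / 2))) := by gcongr
      _ = 2 ^ (a / 2) * z ^ (-(a / 2)) * (x ^ (-a) * x ^ (-(1 - a / 2))) := by ring
      _ = 2 ^ (a / 2) * z ^ (-(a / 2)) * x ^ (-(1 + a / 2)) := by rw [h4]
      _ ≤ _ := mul_le_mul_of_nonneg_left (by have : 0 < y ^ (-(1 + a / 2)) := by positivity
                                             linarith) hK.le
  · have h1 : x ^ (-a) = x ^ (-(a / 2)) * x ^ (-(a / 2)) := by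
      rw [← Real.rpow_add hx0]; congr 1; ring
    have h2 : x ^ (-(a / 2)) ≤ y ^ (-(a / 2)) := Real.rpow_le_rpow_of_nonpos hy0 h (by linarith)
    have h3 := key x hx0 (by linarith)
    have h4 : y ^ (-(a / 2)) * y ^ (-1 : ℝ) = y ^ (-(1 + a / 2)) := by
      rw [← Real.rpow_add hy0]; congr 1; ring
    calc x ^ (-a) * y ^ (-1 : ℝ) = x ^ (-(a / 2)) * x ^ (-(a / 2)) * y ^ (-1 : ℝ) := by rw [h1]
      _ ≤ (2 ^ (a / 2) * z ^ (-(a / 2))) * y ^ (-(a / 2)) * y ^ (-1 : ℝ) := by gcongr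
      _ = 2 ^ (a / 2) * z ^ (-(a / 2)) * (y ^ (-(a / 2)) * y ^ (-1 : ℝ)) := by ring
      _ = 2 ^ (a / 2) * z ^ (-(a / 2)) * y ^ (-(1 + a / 2)) := by rw [h4]
      _ ≤ _ := mul_le_mul_of_nonneg_left (by have : 0 < x ^ (-(1 + a / 2)) := by positivity
                                             linarith) hK.le

private lemma norm_low69 {c : ℝ} (hc : 0 < c) (w : ℝ) : min c 1 / 2 * (1 + |w|) ≤ ‖(c : ℂ) + Complex.I * (w : ℂ)‖ := by
  have h1 : c ≤ ‖(c : ℂ) + Complex.I * (w : ℂ)‖ := by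
    have := Complex.re_le_norm ((c : ℂ) + Complex.I * (w : ℂ))
    simpa using this
  have h2 : |w| ≤ ‖(c : ℂ) + Complex.I * (w : ℂ)‖ := by
    have := Complex.abs_im_le_norm ((c : ℂ) + Complex.I * (w : ℂ))
    simpa using this
  have h3 : min c 1 ≤ c := min_le_left _ _
  have h4 : min c 1 ≤ 1 := min_le_right _ _
  have h5 : 0 < min c 1 := lt_min hc one_pos
  nlinarith [abs_nonneg w]

theorem wb (c a : ℝ) (hc : 0 < c) (ha : 0 < a) (ha1 : a < 1) : ∃ C : ℝ, 0 < C ∧ ∀ t : ℝ,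
    Integrable (fun v : ℝ => (1 + |v|) ^ (-a) / ‖(c : ℂ) + Complex.I * ((v : ℂ) - (t : ℂ))‖) ∧
      ∫ v : ℝ, (1 + |v|) ^ (-a) / ‖(c : ℂ) + Complex.I * ((v : ℂ) - (t : ℂ))‖ ≤ C * (1 + |t|) ^ (-(a / 2)) := by
  have hm : 0 < min c 1 / 2 := by
    have : 0 < min c 1 := lt_min hc one_pos
    positivity
  have hI : Integrable (fun v : ℝ => (1 + |v|) ^ (-(1 + a / 2))) := by
    have := integrable_one_add_norm (E := ℝ) (μ := volume) (r := 1 + a / 2) (by simp; linarith)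
    simpa using this
  set J : ℝ := ∫ v : ℝ, (1 + |v|) ^ (-(1 + a / 2)) with hJ
  have hJ0 : 0 ≤ J := integral_nonneg fun v => by positivity
  refine ⟨(min c 1 / 2)⁻¹ * (2 ^ (a / 2) * (2 * J + 1)), by positivity, fun t => ?_⟩
  have hI2 : Integrable (fun v : ℝ => (1 + |v - t|) ^ (-(1 + a / 2))) := hI.comp_sub_right t
  have hJ2 : ∫ v : ℝ, (1 + |v - t|) ^ (-(1 + a / 2)) = J :=
    integral_sub_right_eq_self (fun v : ℝ => (1 + |v|) ^ (-(1 + a / 2))) t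
  have hb : ∀ v : ℝ, (1 + |v|) ^ (-a) / ‖(c : ℂ) + Complex.I * ((v : ℂ) - (t : ℂ))‖ ≤
      (min c 1 / 2)⁻¹ * (2 ^ (a / 2) * (1 + |t|) ^ (-(a / 2)) *
        ((1 + |v|) ^ (-(1 + a / 2)) + (1 + |v - t|) ^ (-(1 + a / 2)))) := by
    intro v
    have h1 := norm_low69 hc (v - t)
    have e : ((v : ℂ) - (t : ℂ)) = ((v - t : ℝ) : ℂ) := by push_cast; ring
    rw [e]
    have h2 : 0 < min c 1 / 2 * (1 + |v - t|) := by positivity
    calc (1 + |v|) ^ (-a) / ‖(c : ℂ) + Complex.I * ((v - t : ℝ) : ℂ)‖ ≤ (1 + |v|) ^ (-a) / (min c 1 / 2 * (1 + |v - t|)) := by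
          gcongr
      _ = (min c 1 / 2)⁻¹ * ((1 + |v|) ^ (-a) / (1 + |v - t|)) := by
          field_simp
      _ ≤ _ := mul_le_mul_of_nonneg_left (pw69 ha (by linarith)) (by positivity)
  have hbi : Integrable (fun v : ℝ => (min c 1 / 2)⁻¹ * (2 ^ (a / 2) * (1 + |t|) ^ (-(a / 2)) *
        ((1 + |v|) ^ (-(1 + a / 2)) + (1 + |v - t|) ^ (-(1 + a / 2))))) :=
    ((hI.add hI2).const_mul _).const_mul _
  have hne : ∀ v : ℝ, ‖(c : ℂ) + Complex.I * ((v : ℂ) - (t : ℂ))‖ ≠ 0 := by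
    intro v
    have h1 := norm_low69 hc (v - t)
    have e : ((v : ℂ) - (t : ℂ)) = ((v - t : ℝ) : ℂ) := by push_cast; ring
    rw [e]
    have h2 : 0 < min c 1 / 2 * (1 + |v - t|) := by positivity
    exact (lt_of_lt_of_le h2 h1).ne'
  have hcont : Continuous (fun v : ℝ => (1 + |v|) ^ (-a) / ‖(c : ℂ) + Complex.I * ((v : ℂ) - (t : ℂ))‖) := by
    refine Continuous.div ?_ (by fun_prop) hne
    refine Continuous.rpow_const (by fun_prop) fun v => Or.inl ?_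
    have : 0 ≤ |v| := abs_nonneg v
    linarith
  have hint : Integrable (fun v : ℝ => (1 + |v|) ^ (-a) / ‖(c : ℂ) + Complex.I * ((v : ℂ) - (t : ℂ))‖) := by
    refine Integrable.mono' hbi hcont.aestronglyMeasurable (Filter.Eventually.of_forall fun v => ?_)
    rw [Real.norm_of_nonneg (by positivity)]
    exact hb v
  refine ⟨hint, ?_⟩
  calc ∫ v : ℝ, (1 + |v|) ^ (-a) / ‖(c : ℂ) + Complex.I * ((v : ℂ) - (t : ℂ))‖
      ≤ ∫ v : ℝ, (min c 1 / 2)⁻¹ * (2 ^ (a / 2) * (1 + |t|) ^ (-(a / 2)) *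
        ((1 + |v|) ^ (-(1 + a / 2)) + (1 + |v - t|) ^ (-(1 + a / 2)))) := integral_mono hint hbi hb
    _ = (min c 1 / 2)⁻¹ * (2 ^ (a / 2) * (1 + |t|) ^ (-(a / 2)) * (J + J)) := by
        rw [integral_const_mul, integral_const_mul, integral_add hI hI2, hJ2]
    _ ≤ (min c 1 / 2)⁻¹ * (2 ^ (a / 2) * (2 * J + 1)) * (1 + |t|) ^ (-(a / 2)) := by
        have h5 : 0 < (1 + |t|) ^ (-(a / 2)) := by positivity
        have h6 : (0 : ℝ) < 2 ^ (a / 2) := by positivity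
        have h7 : 2 ^ (a / 2) * (1 + |t|) ^ (-(a / 2)) * (J + J) ≤ 2 ^ (a / 2) * (2 * J + 1) * (1 + |t|) ^ (-(a / 2)) := by
          have h8 : 0 < 2 ^ (a / 2) * (1 + |t|) ^ (-(a / 2)) := by positivity
          nlinarith
        calc (min c 1 / 2)⁻¹ * (2 ^ (a / 2) * (1 + |t|) ^ (-(a / 2)) * (J + J))
            ≤ (min c 1 / 2)⁻¹ * (2 ^ (a / 2) * (2 * J + 1) * (1 + |t|) ^ (-(a / 2))) :=
              mul_le_mul_of_nonneg_left h7 (by positivity)
          _ = _ := by ring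

end Pool.Agent.Helper69.IT
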